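import Pool.Agent.Lib.MP_99c1f3_lc.CG.H.Gnm

/-!
# CG3, block H: all cardinals between `ρ n` and `ρ (n + 1)` are collapsed
-/

set_option autoImplicit false

namespace Pool.Agent.CG3

open Pool.Agent.Lib.SymModel

/-- PROOF. `#(Iio r) < rho (n + 1) = succ (2 ^ rho n)`, so there is an injection
`ψ : Iio r → Set (R n)`. `F a b = gnm P n a (ψ b)`. `FnlB`: a condition in `F a b ∩ F a b'` gives
`ψ b = ψ b'`. Onto: `gnm_ext n (ψ b) q`. -/
theorem col3_prod (P : Type 1) [Preorder P] (n : ℕ) (r : R (n + 1)) :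
    OntoB (P × Hx) (R n) (Set.Iio r) := by
  have h1 : Cardinal.mk (Set.Iio r) ≤ 2 ^ rho n := Order.lt_succ_iff.1 (mk_Iio_R r)
  have h2 : Cardinal.mk (Set.Iio r) ≤ Cardinal.mk (Set (R n)) := by
    rw [Cardinal.mk_set, mk_R]
    exact h1
  obtain ⟨ψ⟩ := Cardinal.le_def _ _ |>.1 h2
  refine ⟨fun a b => gnm P n a (ψ b), fun q a b b' s hs hb hb' => ?_, fun q b => ?_⟩
  · rw [mem_gnm] at hb hb'
    rw [hb] at hb'
    exact ψ.injective (Option.some.inj hb')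
  · obtain ⟨s, hs, -, a, ha⟩ := gnm_ext n (ψ b) q
    exact ⟨s, hs, a, ha⟩

end Pool.Agent.CG3
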