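import Pool.Agent.Lib.MP_99c1f3_lc.CG.H.Defs

/-!
# CG3, block H: names of the first factor are names of the product
-/

set_option autoImplicit false

namespace Pool.Agent.CG3

open Pool.Agent.Lib.SymModel

/-- The value of a name of the first factor in the product. -/
def lft {P : Type 1} [Preorder P] (Q : Type 1) [Preorder Q] (U : RO P) : RO (P × Q) where
  carrier := {s | s.1 ∈ U}
  reg s := by
    constructor
    · intro h q hq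
      exact ⟨q, le_rfl, U.down h hq.1⟩
    · intro h
      refine U.mem_of_dense fun q hq => ?_
      obtain ⟨r, hr, h1⟩ := h (q, s.2) ⟨hq, le_rfl⟩
      exact ⟨r.1, hr.1, h1⟩

theorem mem_lft {P : Type 1} [Preorder P] {Q : Type 1} [Preorder Q] {U : RO P} {s : P × Q} :
    s ∈ lft Q U ↔ s.1 ∈ U := Iff.rfl

/-- PROOF. `lft` of the given name. -/
theorem ontoB_lft {P Q : Type 1} [Preorder P] [Preorder Q] {A B : Type*} (h : OntoB P A B) :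
    OntoB (P × Q) A B := by
  obtain ⟨F, h1, h2⟩ := h
  refine ⟨fun a b => lft Q (F a b), fun q a b b' r hr hb hb' => h1 q.1 a b b' r.1 hr.1 hb hb', ?_⟩
  intro q b
  obtain ⟨r, hr, a, ha⟩ := h2 q.1 b
  exact ⟨(r, q.2), ⟨hr, le_rfl⟩, a, ha⟩

/-- PROOF. `lft` of all names. -/
theorem starB_lft {P Q : Type 1} [Preorder P] [Preorder Q] (h : StarB P) : StarB (P × Q) := by
  obtain ⟨e, D, h1, h2, h3, h4⟩ := h
  refine ⟨fun x ν => lft Q (e x ν), fun x γ => lft Q (D x γ), ?_, ?_, ?_, ?_⟩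
  · intro x α q
    obtain ⟨r, hr, γ, hγ, h⟩ := h1 x α q.1
    exact ⟨(r, q.2), ⟨hr, le_rfl⟩, γ, hγ, h⟩
  · intro x γ hγ q h
    refine h2 x γ hγ q.1 fun α hα q' hq' => ?_
    obtain ⟨r, hr, β, hβ1, hβ2, hβ⟩ := h α hα (q', q.2) ⟨hq', le_rfl⟩
    exact ⟨r.1, hr.1, β, hβ1, hβ2, hβ⟩
  · intro d hd q
    obtain ⟨r, hr, l, hl, h⟩ := h3 d hd q.1
    refine ⟨(r, q.2), ⟨hr, le_rfl⟩, l, hl, fun x s hs => ?_⟩
    obtain ⟨t, ht, β, hβ⟩ := h x s.1 hs.1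
    exact ⟨(t, s.2), ⟨ht, le_rfl⟩, β, fun ν hν t' ht' h' => hβ ν hν t'.1 ht'.1 h'⟩
  · intro b
    obtain ⟨c, hc1, hc2, hc3⟩ := h4 b
    refine ⟨fun x ξ => lft Q (c x ξ), fun q x ξ ξ' r hr h h' => hc1 q.1 x ξ ξ' r.1 hr.1 h h',
      fun q x => ?_, fun q x y ξ hxy hx hy => ?_⟩
    · obtain ⟨r, hr, ξ, hξ⟩ := hc2 q.1 x
      exact ⟨(r, q.2), ⟨hr, le_rfl⟩, ξ, hξ⟩
    · obtain ⟨r, hr, h⟩ := hc3 q.1 x y ξ hxy hx hy
      refine ⟨(r, q.2), ⟨hr, le_rfl⟩, h.imp_right ?_⟩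
      rintro ⟨γ, hγ, h⟩
      exact ⟨γ, hγ, fun ν hν hν' s hs h1 => h ν hν hν' s.1 hs.1 h1⟩

end Pool.Agent.CG3
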