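import Pool.Agent.Lib.MP_99c1f3_lc.CG.H.Ch

/-!
# CG3, block H: Easton's lemma
-/

set_option autoImplicit false

namespace Pool.Agent.CG3

/-- Easton's lemma for one dense open set.

PROOF. Assume not: for every `q' ≤ q` there is `p` with `(p', q') ∉ D` for all `p' ≤ p`.
Let `W = θ.ord.ToType` (`#W = θ`, all `#(Iio w) < θ`: `Cardinal.mk_Iio_ord_toType` or similar),
`X = P` and `Rl w q' x q'' : (x, q'') ∈ D ∧ ∀ t ≤ x, (t, q') ∉ D`. `hR`: take `p` for `q'`, density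
of `D` gives `(x, q'') ≤ (p, q')` in `D`. `long_desc` gives `a b x`. For `v < w` the conditions
`x v`, `x w` are incompatible: if `t ≤ x v, x w` then `(t, a w) ≤ (x v, b v) ∈ D`, so
`(t, a w) ∈ D`, against `Rl w (a w) (x w) (b w)`. So `x` is injective (put `t = x v`) and its range
is an antichain of size `θ`, against `CCB P θ`. -/
theorem easton_one {P Q : Type 1} [Preorder P] [Preorder Q] {θ : Cardinal.{1}}
    (hθ : Cardinal.aleph0 ≤ θ) (hP : CCB P θ) (hQ : ClosB Q θ) {D : Set (P × Q)} (hD : DnsO D)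
    (q : Q) : ∃ q' ≤ q, ∀ p, ∃ p' ≤ p, (p', q') ∈ D := by
  by_contra hno
  push Not at hno
  have hneP : Nonempty P := by
    obtain ⟨p, _⟩ := hno q le_rfl
    exact ⟨p⟩
  have hW : ∀ w : θ.ord.ToType, Cardinal.mk (Set.Iio w) < θ := fun w =>
    Cardinal.mk_Iio_toType_ord_lt w
  have hR : ∀ w : θ.ord.ToType, ∀ q1 ≤ q, ∃ x : P, ∃ q' ≤ q1,
      (fun (_ : θ.ord.ToType) (a : Q) (x : P) (b : Q) => (x, b) ∈ D ∧ ∀ t ≤ x, (t, a) ∉ D)
        w q1 x q' := by
    intro w q1 hq1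
    obtain ⟨p, hp⟩ := hno q1 hq1
    obtain ⟨⟨x, q2⟩, h1, h2⟩ := hD.dns (p, q1)
    exact ⟨x, q2, h1.2, h2, fun t ht => hp t (ht.trans h1.1)⟩
  obtain ⟨a, b, x, h1, h2, h3, h4⟩ := long_desc hθ hW hQ q _ hR
  have hinc : ∀ v w, v < w → ∀ t, t ≤ x v → ¬ t ≤ x w := by
    intro v w hvw t htv htw
    exact (h3 w).2 t htw (hD.opn _ (h3 v).1 (t, a w) ⟨htv, h4 v w hvw⟩)
  have hinj : Function.Injective x := by
    intro v w hvw
    rcases lt_trichotomy v w with h | h | h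
    · exact absurd (le_of_eq hvw) (hinc v w h (x v) le_rfl)
    · exact h
    · exact absurd (le_of_eq hvw.symm) (hinc w v h (x w) le_rfl)
  have h5 := hP (Set.range x) (by
    rintro _ ⟨v, rfl⟩ _ ⟨w, rfl⟩ hne r hr1 hr2
    rcases lt_trichotomy v w with h | h | h
    · exact hinc v w h r hr1 hr2
    · exact hne (congrArg x h)
    · exact hinc w v h r hr2 hr1)
  rw [Cardinal.mk_range_eq x hinj, Cardinal.mk_ord_toType] at h5
  exact lt_irrefl _ h5

/-- Easton's lemma for fewer than `θ` dense open sets.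

PROOF. `W = (#A).ord.ToType`, `g : W ≃ A`; `#(Iio w) < #A < θ`. `long_desc` with `X = PUnit` and
`Rl w _ _ q'' : ∀ p, ∃ p' ≤ p, (p', q'') ∈ D (g w)` (`easton_one`). The set
`{q} ∪ range b` is a chain of size `< θ`; let `q'` be a lower bound; `D (g w)` is open, so
`(p', b w) ∈ D (g w)` implies `(p', q') ∈ D (g w)`. -/
theorem easton {P Q : Type 1} [Preorder P] [Preorder Q] {θ : Cardinal.{1}}
    (hθ : Cardinal.aleph0 ≤ θ) (hP : CCB P θ) (hQ : ClosB Q θ) {A : Type 1}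
    (hA : Cardinal.mk A < θ) (D : A → Set (P × Q)) (hD : ∀ a, DnsO (D a)) (q : Q) :
    ∃ q' ≤ q, ∀ a p, ∃ p' ≤ p, (p', q') ∈ D a := by
  obtain ⟨g⟩ : Nonempty ((Cardinal.mk A).ord.ToType ≃ A) :=
    Cardinal.eq.1 (Cardinal.mk_ord_toType _)
  have hW : ∀ w : (Cardinal.mk A).ord.ToType, Cardinal.mk (Set.Iio w) < θ := fun w =>
    (Cardinal.mk_Iio_toType_ord_lt w).trans hA
  have hR : ∀ w : (Cardinal.mk A).ord.ToType, ∀ q1 ≤ q, ∃ x : Unit, ∃ q' ≤ q1,
      (fun (w : (Cardinal.mk A).ord.ToType) (_ : Q) (_ : Unit) (b : Q) =>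
        ∀ p, ∃ p' ≤ p, (p', b) ∈ D (g w)) w q1 x q' := by
    intro w q1 hq1
    obtain ⟨q2, h1, h2⟩ := easton_one hθ hP hQ (hD (g w)) q1
    exact ⟨(), q2, h1, h2⟩
  obtain ⟨a, b, x, h1, h2, h3, h4⟩ := long_desc hθ hW hQ q _ hR
  have hc : IsChain (· ≤ ·) (insert q (Set.range b)) := by
    intro c hc c' hc' hne
    rcases hc with rfl | ⟨v, rfl⟩
    · rcases hc' with rfl | ⟨w, rfl⟩
      · exact absurd rfl hne
      · exact Or.inr ((h2 w).trans (h1 w))
    · rcases hc' with rfl | ⟨w, rfl⟩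
      · exact Or.inl ((h2 v).trans (h1 v))
      · rcases lt_trichotomy v w with h | h | h
        · exact Or.inr ((h2 w).trans (h4 v w h))
        · exact absurd (congrArg b h) hne
        · exact Or.inl ((h2 v).trans (h4 w v h))
  have hcard : Cardinal.mk (insert q (Set.range b) : Set Q) < θ := by
    refine (Cardinal.mk_insert_le).trans_lt ?_
    refine Cardinal.add_lt_of_lt hθ ?_ (Cardinal.one_lt_aleph0.trans_le hθ)
    refine (Cardinal.mk_range_le).trans_lt ?_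
    rw [Cardinal.mk_ord_toType]
    exact hA
  obtain ⟨q', hq'⟩ := hQ _ hc hcard
  refine ⟨q', hq' q (Set.mem_insert _ _), ?_⟩
  intro c p
  obtain ⟨p', h5, h6⟩ := h3 (g.symm c) p
  rw [g.apply_symm_apply] at h6
  refine ⟨p', h5, (hD c).opn _ h6 (p', q') ⟨le_rfl, ?_⟩⟩
  exact hq' _ (Set.mem_insert_of_mem _ ⟨_, rfl⟩)

end Pool.Agent.CG3
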