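import Pool.Agent.Lib.MP_99c1f3_lc.CG.H.Pow
import Pool.Agent.Lib.MP_99c1f3_lc.CG.H.Eas

/-!
# CG3, block H: the power sets, conclusion
-/

set_option autoImplicit false

namespace Pool.Agent.CG3

open Pool.Agent.Lib.SymModel

/-- Transport of a regular set along an isomorphism. -/
private def Pow2_tr {A B : Type 1} [Preorder A] [Preorder B] (e : A ≃o B) (U : RO A) : RO B where
  carrier := {t | e.symm t ∈ U}
  reg p := by
    constructor
    · intro h q hq
      exact ⟨q, le_rfl, U.down h (e.symm.monotone hq)⟩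
    · intro h
      refine U.mem_of_dense fun q hq => ?_
      obtain ⟨r, hr, h1⟩ := h (e q) (by
        rw [← e.apply_symm_apply p]
        exact e.monotone hq)
      refine ⟨e.symm r, ?_, h1⟩
      rw [← e.symm_apply_apply q]
      exact e.symm.monotone hr

private theorem Pow2_mem {A B : Type 1} [Preorder A] [Preorder B] {e : A ≃o B} {U : RO A}
    {s : A} : e s ∈ Pow2_tr e U ↔ s ∈ U := by
  change e.symm (e s) ∈ U ↔ s ∈ U
  rw [e.symm_apply_apply]

/-- PROOF. Let `φ` be as in `exists_surj`, `e` as in `exists_split`, and let `E a ν` be the regular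
set of all `s` such that densely below `s` there are `s'` and `X` with `(s'.2 (n+1)).f a = some X`
and `(e s').1 ∈ φ X ν` (`RO.mkOf`; downward closed). Let `Y`, `q` be given. Apply `red_set` in
`(P × Hle n) × Hgt n` to the transported name and `e q` (`hE` is `easton` with `θ = rho (n + 1)`,
`A = R n`): `k ≤ (e q).2` and `y : R n → RO (P × Hle n)`. Let `X` with `φ X = y`, and let
`q2 = e.symm ((e q).1, k) ≤ q`; `gnm_ext (n + 1) X q2` gives `r ≤ q2` with `r.1 = q2.1` and `a` with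
`(r.2 (n+1)).f a = some X`. For `s ≤ r`: `e s ≤ e q2 = ((e q).1, k)`, so `s ∈ Y ν` iff
`(e s).1 ∈ y ν`; and `s ∈ E a ν` iff densely `s' ≤ s` has `(e s').1 ∈ φ X ν = y ν` (the value at `a`
is `X` for all `s' ≤ r`), iff `(e s).1 ∈ y ν`: `→`: for `t ≤ (e s).1` let
`s0 = e.symm (t, (e s).2) ≤ s`, `s' ≤ s0` as in the definition, `(e s').1 ≤ t`. -/
theorem pow_prod {P : Type 1} [Preorder P] (h : Facts0 P) (n : ℕ) :
    ∃ E : R (n + 1) → R n → RO (P × Hx), ∀ (Y : R n → RO (P × Hx)) (q : P × Hx),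
      ∃ r ≤ q, ∃ a, ∀ ν, ∀ s ≤ r, (s ∈ E a ν ↔ s ∈ Y ν) := by
  obtain ⟨φ, hφ⟩ := exists_surj h.card n
  obtain ⟨e, -⟩ := exists_split P n
  have hval : ∀ {s r : P × Hx} (_ : s ≤ r) {a : R (n + 1)} {X : Set (R (n + 1))},
      (r.2 (n + 1)).f a = some X → (s.2 (n + 1)).f a = some X :=
    fun hs a X hX => hs.2 (n + 1) a X hX
  have hfst : ∀ {s r : P × Hx}, s ≤ r → (e s).1 ≤ (e r).1 := fun hs => (e.monotone hs).1
  refine ⟨fun a ν => RO.mkOf {s | ∃ X, (s.2 (n + 1)).f a = some X ∧ (e s).1 ∈ φ X ν}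
    (fun p hp q hq => ?_), fun Y q => ?_⟩
  · obtain ⟨X, hX, h1⟩ := hp
    exact ⟨X, hval hq hX, (φ X ν).down h1 (hfst hq)⟩
  · have hE := fun (D : R n → Set ((P × Hle n) × Hgt n)) (hD : ∀ a, DnsO (D a)) (q : Hgt n) =>
      easton (θ := rho (n + 1)) (rho_reg (n + 1)).aleph0_le (ccB_prod h.card n) (closB_Hgt n)
        (by rw [mk_R]; exact rho_strictMono (Nat.lt_succ_self n)) D hD q
    obtain ⟨k, hk, y, hy⟩ := red_set hE (fun ν => Pow2_tr e (Y ν)) (e q)
    obtain ⟨X, hX⟩ := hφ y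
    have hq2 : e.symm ((e q).1, k) ≤ q := by
      rw [← e.symm_apply_apply q]
      refine e.symm.monotone ?_
      rw [e.apply_symm_apply]
      exact ⟨le_rfl, hk⟩
    obtain ⟨r, hr, -, a, ha⟩ := gnm_ext (n + 1) X (e.symm ((e q).1, k))
    refine ⟨r, hr.trans hq2, a, fun ν s hs => ?_⟩
    have hes : e s ≤ ((e q).1, k) := by
      have := e.monotone (hs.trans hr)
      rwa [e.apply_symm_apply] at this
    have h1 : s ∈ Y ν ↔ (e s).1 ∈ y ν := Pow2_mem.symm.trans (hy ν (e s) hes)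
    have haX : (r.2 (n + 1)).f a = some X := ha
    rw [h1, RO.mem_mkOf]
    constructor
    · intro h2
      refine (y ν).mem_of_dense fun t ht => ?_
      have hs0 : e.symm (t, (e s).2) ≤ s := by
        rw [← e.symm_apply_apply s]
        refine e.symm.monotone ?_
        rw [e.apply_symm_apply]
        exact ⟨ht, le_rfl⟩
      obtain ⟨r', hr', X', hX', h3⟩ := h2 _ hs0
      have h4 : some X = some X' := by
        rw [← hX', ← hval ((hr'.trans hs0).trans hs) haX]
      rw [← Option.some.inj h4, hX] at h3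
      refine ⟨(e r').1, ?_, h3⟩
      have := hfst hr'
      rwa [e.apply_symm_apply] at this
    · intro h2 q' hq'
      refine ⟨q', le_rfl, X, hval (hq'.trans hs) haX, ?_⟩
      rw [hX]
      exact (y ν).down h2 (hfst hq')

end Pool.Agent.CG3
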