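import Pool.Agent.Lib.MP_99c1f3_lc.CG.H.Bd01
import Pool.Agent.Lib.MP_99c1f3_lc.CG.H.Col3
import Pool.Agent.Lib.MP_99c1f3_lc.CG.H.Pow2
import Pool.Agent.Lib.MP_99c1f3_lc.CG.H.Lft

/-!
# CG3, block H: assembly
-/

set_option autoImplicit false

namespace Pool.Agent.CG3

open Pool.Agent.Lib.SymModel

/-- PROOF. `ne`: `Hx` is nonempty (`closB_Hx` for the empty chain). `bdd0`, `bdd1`: `bdd0_prod`,
`bdd1_prod` with `hE` from `easton` (`θ = rho 0`; for `ℕ` use `ULift.{1} ℕ`). `bdd2`: `bddB_of_red`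
with `θ = rho 0`, `A = L`. `bdd3 n`: `bddB_iso` along `exists_split n` and `bddB_of_red` with
`θ = rho (n + 1)`, `A = R n`, `ccB_prod`, `closB_Hgt`. `col0`, `col2`: `ontoB_lft`. `col3`:
`col3_prod`. `pow`: `pow_prod`. `star`: `starB_lft`. -/
theorem facts_prod {P : Type 1} [Preorder P] (h : Facts0 P) : Facts (P × Hx) := by
  have hreg : ∀ n, Cardinal.aleph0 ≤ rho n := fun n => (rho_reg n).aleph0_le
  have hcc0 : CCB P (rho 0) := ccB_of_facts0 h
  refine ⟨?_, ?_, ?_, ?_, ?_, ?_, ?_, ?_, ?_, ?_⟩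
  · obtain ⟨p⟩ := h.ne
    obtain ⟨q, -⟩ := closB_Hx ∅ (by simp [IsChain]) (by
      rw [Cardinal.mk_eq_zero]
      exact lt_of_lt_of_le Cardinal.aleph0_pos (hreg 0))
    exact ⟨(p, q)⟩
  · refine bdd0_prod h fun D hD q => ?_
    obtain ⟨q', hq, h1⟩ := easton (hreg 0) hcc0 closB_Hx (A := ULift.{1} ℕ) (by
      rw [Cardinal.mk_uLift, Cardinal.mk_nat, Cardinal.lift_aleph0]
      exact lt_of_le_of_lt aleph0_le_kap (kap_lt_rho 0)) (fun a => D a.down)
      (fun a => hD a.down) q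
    exact ⟨q', hq, fun a p => h1 ⟨a⟩ p⟩
  · refine bdd1_prod h fun D hD q => ?_
    exact easton (hreg 0) hcc0 closB_Hx (kap_lt_rho 0) D hD q
  · exact bddB_of_red (rho_reg 0) hcc0 (mk_L_lt_rho 0) fun D hD q =>
      easton (hreg 0) hcc0 closB_Hx (mk_L_lt_rho 0) D hD q
  · intro n
    obtain ⟨e, -⟩ := exists_split P n
    have hA : Cardinal.mk (R n) < rho (n + 1) := by
      rw [mk_R]
      exact rho_strictMono (Nat.lt_succ_self n)
    refine bddB_iso e ?_
    exact bddB_of_red (rho_reg (n + 1)) (ccB_prod h.card n) hA fun D hD q =>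
      easton (hreg (n + 1)) (ccB_prod h.card n) (closB_Hgt n) hA D hD q
  · exact fun α => ontoB_lft (h.col0 α)
  · exact fun r => ontoB_lft (h.col2 r)
  · exact fun n r => col3_prod P n r
  · exact fun n => pow_prod h n
  · exact starB_lft h.star

/-- PROOF. `propA` gives `S = Set.range r` (small, `r : J → P`, `J : Type`), `propB` gives
`S = Set.range r` (`#S ≤ #K0 = kap`); `CovB` is the same statement up to the order of the
clauses. The other fields are the same. -/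
theorem facts0_of_pfacts {P : Type 1} [Preorder P] (h : PFacts P) : Facts0 P := by
  refine ⟨h.ne, h.card, h.cc, ?_, ?_, h.col0, h.col2, h.star⟩
  · intro D hD q
    obtain ⟨r, hr, J, f, hf⟩ := h.propA D (fun n => ⟨(hD n).opn, (hD n).dns⟩) q
    refine ⟨r, hr, Set.range f, small_range f, fun n s hs => ?_⟩
    obtain ⟨t, ht, j, htj, hj⟩ := hf n s hs
    exact ⟨f j, ⟨j, rfl⟩, hj, t, ht, htj⟩
  · intro D hD q
    obtain ⟨r, hr, f, hf⟩ := h.propB D (fun n => ⟨(hD n).opn, (hD n).dns⟩) q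
    refine ⟨r, hr, Set.range f, Cardinal.mk_range_le, fun n s hs => ?_⟩
    obtain ⟨t, ht, j, htj, hj⟩ := hf n s hs
    exact ⟨f j, ⟨j, rfl⟩, hj, t, ht, htj⟩

theorem facts_of_pfacts {P : Type 1} [Preorder P] (h : PFacts P) : Facts (P × Hx) :=
  facts_prod (facts0_of_pfacts h)

end Pool.Agent.CG3
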