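import Pool.Agent.Lib.MP_99c1f3_lc.CG.H.RedC

/-!
# CG3, block H: `κ` and `κ⁺` are not collapsed
-/

set_option autoImplicit false

namespace Pool.Agent.CG3

open Pool.Agent.Lib.SymModel

private theorem bd01_small {V : Set K0} (h : Small.{0} V) : ∃ b : K0, ∀ c ∈ V, c < b := by
  obtain ⟨M, hM⟩ := Ordinal.bddAbove_of_small (s := V)
  exact ⟨Order.succ M, fun c hc => lt_of_le_of_lt (hM hc) (Order.lt_succ M)⟩

private theorem bd01_bound {V : Set L} (hV : Cardinal.mk V ≤ kap) : ∃ b : L, ∀ c ∈ V, c < b := by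
  by_contra hcon
  push Not at hcon
  have hinf : Cardinal.aleph0 ≤ kap := Cardinal.aleph0_le_mk K0
  have hI : ∀ c : L, Cardinal.mk (Set.Iic c) ≤ kap := by
    intro c
    have h1 : Cardinal.mk (Set.Iio c) < Order.succ kap := by
      simpa using Cardinal.mk_Iio_lt c (by simp)
    have h2 : Cardinal.mk (Set.Iio c) ≤ kap := Order.lt_succ_iff.1 h1
    have h3 : Set.Iic c = insert c (Set.Iio c) := Set.Iio_insert.symm
    rw [h3]
    refine Cardinal.mk_insert_le.trans ?_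
    calc Cardinal.mk (Set.Iio c) + 1 ≤ kap + 1 := add_le_add h2 le_rfl
      _ = kap := Cardinal.add_one_eq hinf
  have h4 : (Set.univ : Set L) ⊆ ⋃ c : V, Set.Iic c.1 := by
    intro b _
    obtain ⟨c, hc, hbc⟩ := hcon b
    exact Set.mem_iUnion.2 ⟨⟨c, hc⟩, hbc⟩
  have h5 : Cardinal.mk L ≤ kap := by
    calc Cardinal.mk L = Cardinal.mk (Set.univ : Set L) := Cardinal.mk_univ.symm
      _ ≤ Cardinal.mk (⋃ c : V, Set.Iic c.1) := Cardinal.mk_le_mk_of_subset h4
      _ ≤ Cardinal.mk V * ⨆ c : V, Cardinal.mk (Set.Iic c.1) := Cardinal.mk_iUnion_le _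
      _ ≤ kap * kap := mul_le_mul' hV (ciSup_le' fun c => hI c.1)
      _ = kap := Cardinal.mul_eq_self hinf
  have h6 : Cardinal.mk L = Order.succ kap := Cardinal.mk_ord_toType _
  rw [h6] at h5
  exact absurd (Order.lt_succ kap) (not_lt.2 h5)

/-- PROOF. `red_cov` with `A = ℕ`, `T S = Small.{0} S`, `hc = h.pd0`. All values `c` below `r` are
in `{c | ∃ a, ∃ t ∈ S, G a t = some c}`, which is small (the image of a subset of `ℕ × S`),
hence bounded in `K0 = Ordinal.{0}` (`Ordinal.bddAbove_of_small`); take `b` = a bound `+ 1`. -/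
theorem bdd0_prod {P Q : Type 1} [Preorder P] [Preorder Q] (h : Facts0 P)
    (hE : ∀ D : ℕ → Set (P × Q), (∀ a, DnsO (D a)) → ∀ q : Q,
      ∃ q' ≤ q, ∀ a p, ∃ p' ≤ p, (p', q') ∈ D a) : BddB (P × Q) ℕ K0 := by
  intro q F hF
  obtain ⟨r, hr, S, hS, G, hG⟩ := red_cov hE (fun S => Small.{0} S) h.pd0 q F hF
  have hsm : Small.{0} {c : K0 | ∃ a, ∃ t ∈ S, G a t = some c} := by
    have hS' : Small.{0} S := hS
    have hr' : Small.{0} (Set.range fun x : ℕ × S => (G x.1 x.2.1).getD 0) := inferInstance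
    have hsub : {c : K0 | ∃ a, ∃ t ∈ S, G a t = some c} ⊆
        Set.range fun x : ℕ × S => (G x.1 x.2.1).getD 0 := by
      rintro c ⟨a, t, ht, hc⟩
      exact ⟨(a, ⟨t, ht⟩), by simp [hc]⟩
    exact small_subset hsub
  obtain ⟨b, hb⟩ := bd01_small hsm
  refine ⟨r, hr, b, fun a c s hs hsF => hb c ?_⟩
  obtain ⟨t, ht, hc⟩ := hG a c s hs hsF
  exact ⟨a, t, ht, hc⟩

/-- PROOF. The same with `A = K0`, `T S : #S ≤ kap`, `hc = h.pd1`; the values below `r` form a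
set of size `≤ #(K0 × S) ≤ kap < succ kap`, hence bounded in `L = (succ kap).ord.ToType`
(`succ kap` is regular, its `ord` is a limit). -/
theorem bdd1_prod {P Q : Type 1} [Preorder P] [Preorder Q] (h : Facts0 P)
    (hE : ∀ D : K0 → Set (P × Q), (∀ a, DnsO (D a)) → ∀ q : Q,
      ∃ q' ≤ q, ∀ a p, ∃ p' ≤ p, (p', q') ∈ D a) : BddB (P × Q) K0 L := by
  intro q F hF
  obtain ⟨r, hr, S, hS, G, hG⟩ := red_cov hE (fun S => Cardinal.mk S ≤ kap) h.pd1 q F hF
  have hinf : Cardinal.aleph0 ≤ kap := Cardinal.aleph0_le_mk K0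
  have hsm : Cardinal.mk {c : L | ∃ a, ∃ t ∈ S, G a t = some c} ≤ kap := by
    obtain ⟨V, hV⟩ : ∃ V : Set L, V = {c : L | ∃ a, ∃ t ∈ S, G a t = some c} := ⟨_, rfl⟩
    rw [← hV]
    have h1 : some '' V ⊆ Set.range fun x : K0 × S => G x.1 x.2.1 := by
      rintro _ ⟨c, hc, rfl⟩
      rw [hV] at hc
      obtain ⟨a, t, ht, hc⟩ := hc
      exact ⟨(a, ⟨t, ht⟩), hc⟩
    calc Cardinal.mk V = Cardinal.mk (some '' V) :=
          (Cardinal.mk_image_eq (Option.some_injective _)).symm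
      _ ≤ Cardinal.mk (Set.range fun x : K0 × S => G x.1 x.2.1) :=
          Cardinal.mk_le_mk_of_subset h1
      _ ≤ Cardinal.mk (K0 × S) := Cardinal.mk_range_le
      _ = kap * Cardinal.mk S := by rw [Cardinal.mk_prod, Cardinal.lift_id, Cardinal.lift_id]; rfl
      _ ≤ kap * kap := mul_le_mul' le_rfl hS
      _ = kap := Cardinal.mul_eq_self hinf
  obtain ⟨b, hb⟩ := bd01_bound hsm
  refine ⟨r, hr, b, fun a c s hs hsF => hb c ?_⟩
  obtain ⟨t, ht, hc⟩ := hG a c s hs hsF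
  exact ⟨a, t, ht, hc⟩

end Pool.Agent.CG3
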