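import Pool.Agent.Lib.MP_99c1f3_lc.CG.H.Defs

/-!
# CG3, block H: bounded names in products
-/

set_option autoImplicit false

namespace Pool.Agent.CG3

open Pool.Agent.Lib.SymModel

/-- The conditions which decide the value of a name of a function at `a`. -/
def DecS {P : Type 1} [Preorder P] {A B : Type*} (F : A → B → RO P) (a : A) : Set P :=
  {s | (∃ b, s ∈ F a b) ∨ ∀ r ≤ s, ∀ b, r ∉ F a b}

/-- PROOF. Dense: if some `r ≤ s` and `b` have `r ∈ F a b` take `r`, otherwise `s` is in the set.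
Open: `RO.down`. -/
theorem decS_dnsO {P : Type 1} [Preorder P] {A B : Type*} (F : A → B → RO P) (a : A) :
    DnsO (DecS F a) := by
  constructor
  · intro p
    by_cases h : ∃ r ≤ p, ∃ b, r ∈ F a b
    · obtain ⟨r, hr, b, hb⟩ := h
      exact ⟨r, hr, Or.inl ⟨b, hb⟩⟩
    · exact ⟨p, le_rfl, Or.inr fun r hr b hb => h ⟨r, hr, b, hb⟩⟩
  · intro p hp q hq
    rcases hp with ⟨b, hb⟩ | h
    · exact Or.inl ⟨b, (F a b).down hb hq⟩
    · exact Or.inr fun r hr b => h r (hr.trans hq) b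

/-- If fewer than `θ` dense open sets of `P × Q` can be reduced to `P` (the conclusion of
Easton's lemma) and `P` has the `θ`-chain condition, names of functions from a set of size `< θ`
to `θ` are bounded.

PROOF. Let `q = (p1, q1)`, `F` as in `BddB`. `hE` for `D a = DecS F a` gives `q' ≤ q1` such that
for all `a`, `{p | (p, q') ∈ DecS F a}` is dense. Put `r = (p1, q') ≤ q` and
`B a = {b | ∃ p ≤ p1, (p, q') ∈ F a b}`. For `b ∈ B a` choose such a `p = π a b`. For `b ≠ b'` in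
`B a` the conditions `π a b`, `π a b'` are incompatible (a common extension `t` has
`(t, q') ∈ F a b ∩ F a b'` and `(t, q') ≤ q`, so `b = b'` by `FnlB`), so `#(B a) < θ` by `hP`
(`π a` is injective on `B a`, its image is an antichain). `⋃ a, B a` has size `< θ`
(regularity: `Cardinal.mk_iUnion_le_of_lt` ..., `#A < θ`), so it is bounded in `θ.ord.ToType`:
there is `b0` with `b < b0` for all `b` in it (`Ordinal.lt_cof...`, or
`Cardinal.bounded_of...`: an unbounded subset has size `≥ cof = θ`; `θ.ord` is a limit).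
Let `s = (s1, s2) ≤ r`, `s ∈ F a c`. Choose `t ≤ s1` with `(t, q') ∈ DecS F a`. As
`(t, s2) ≤ s` is in `F a c` and `(t, s2) ≤ (t, q')`, the second alternative of `DecS` fails, so
`(t, q') ∈ F a b` for some `b`; `b = c` by `FnlB` at `(t, s2) ≤ q`; so `c ∈ B a`, `c < b0`. -/
theorem bddB_of_red {P Q : Type 1} [Preorder P] [Preorder Q] {θ : Cardinal.{1}}
    (hθ : θ.IsRegular) (hP : CCB P θ) {A : Type 1} (hA : Cardinal.mk A < θ)
    (hE : ∀ D : A → Set (P × Q), (∀ a, DnsO (D a)) → ∀ q : Q,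
      ∃ q' ≤ q, ∀ a p, ∃ p' ≤ p, (p', q') ∈ D a) :
    BddB (P × Q) A θ.ord.ToType := by
  rintro ⟨p1, q1⟩ F hF
  obtain ⟨q', hq', h⟩ := hE (fun a => DecS F a) (fun a => decS_dnsO F a) q1
  have hBa : ∀ a : A, Cardinal.mk {b : θ.ord.ToType | ∃ p ≤ p1, (p, q') ∈ F a b} < θ := by
    intro a
    obtain ⟨B, hB⟩ : ∃ B : Set θ.ord.ToType, B = {b | ∃ p ≤ p1, (p, q') ∈ F a b} := ⟨_, rfl⟩
    rw [← hB]
    have hch : ∀ b : B, ∃ p ≤ p1, (p, q') ∈ F a b.1 := by
      rintro ⟨b, hb⟩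
      rw [hB] at hb
      exact hb
    choose π hπ1 hπ2 using hch
    have hinc : ∀ b b' : B, ∀ t, t ≤ π b → t ≤ π b' → b = b' := by
      intro b b' t ht ht'
      refine Subtype.ext (hF a b.1 b'.1 (t, q') ⟨ht.trans (hπ1 b), hq'⟩ ?_ ?_)
      · exact (F a b.1).down (hπ2 b) ⟨ht, le_rfl⟩
      · exact (F a b'.1).down (hπ2 b') ⟨ht', le_rfl⟩
    have hinj : Function.Injective π := fun b b' hbb => hinc b b' (π b) le_rfl hbb.le
    have h1 : Cardinal.mk (Set.range π) < θ := by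
      refine hP _ ?_
      rintro _ ⟨b, rfl⟩ _ ⟨b', rfl⟩ hne r hr hr'
      exact hne (congrArg π (hinc b b' r hr hr'))
    rwa [Cardinal.mk_range_eq π hinj] at h1
  have hU : Cardinal.mk (⋃ a : A, {b : θ.ord.ToType | ∃ p ≤ p1, (p, q') ∈ F a b} :
      Set θ.ord.ToType) < θ :=
    (Cardinal.card_iUnion_lt_iff_forall_of_isRegular hθ hA).2 hBa
  have hcof : ¬ IsCofinal (⋃ a : A, {b : θ.ord.ToType | ∃ p ≤ p1, (p, q') ∈ F a b}) := by
    intro hc
    have h1 := Order.cof_le hc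
    rw [Ordinal.cof_toType, hθ.cof_ord] at h1
    exact absurd h1 (not_le.2 hU)
  obtain ⟨b0, hb0⟩ : ∃ b0, ∀ b ∈ (⋃ a : A, {b : θ.ord.ToType | ∃ p ≤ p1, (p, q') ∈ F a b}),
      b < b0 := by
    by_contra hcon
    push Not at hcon
    exact hcof fun x => hcon x
  refine ⟨(p1, q'), ⟨le_rfl, hq'⟩, b0, ?_⟩
  rintro a c ⟨s1, s2⟩ ⟨hs1, hs2⟩ hs
  obtain ⟨t, ht, htD⟩ := h a s1
  have hs2' : s2 ≤ q' := hs2
  have hts : (t, s2) ∈ F a c := (F a c).down hs ⟨ht, le_rfl⟩
  have htq : ((t, s2) : P × Q) ≤ (t, q') := ⟨le_rfl, hs2'⟩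
  rcases htD with ⟨b, hb⟩ | hnb
  · have hbc : b = c := hF a b c (t, s2) ⟨ht.trans hs1, hs2'.trans hq'⟩
      ((F a b).down hb htq) hts
    refine hb0 c (Set.mem_iUnion.2 ⟨a, t, ht.trans hs1, ?_⟩)
    rw [← hbc]
    exact hb
  · exact absurd hts (hnb (t, s2) htq c)

/-- PROOF. Transport `F : A → B → RO P` to `F' a b = {p' | e.symm p' ∈ F a b}` (as in
`RO.mapIso`) and use `h` at `e q`. -/
theorem bddB_iso {P P' : Type 1} [Preorder P] [Preorder P'] (e : P ≃o P') {A B : Type*} [LT B]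
    (h : BddB P' A B) : BddB P A B := by
  intro q F hF
  obtain ⟨r', hr', b, hb⟩ := h (e q) (fun a b =>
    { carrier := {p' | e.symm p' ∈ F a b}
      reg := fun p' => by
        constructor
        · intro hp' t ht
          exact ⟨t, le_rfl, (F a b).down hp' (e.symm.monotone ht)⟩
        · intro hp'
          refine (F a b).mem_of_dense fun t ht => ?_
          obtain ⟨r, hr, h1⟩ := hp' (e t) (by
            have h2 := e.monotone ht
            rwa [e.apply_symm_apply] at h2)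
          refine ⟨e.symm r, ?_, h1⟩
          have h2 := e.symm.monotone hr
          rwa [e.symm_apply_apply] at h2 }) (by
    intro a b b' r hr h1 h2
    refine hF a b b' (e.symm r) ?_ h1 h2
    have h3 := e.symm.monotone hr
    rwa [e.symm_apply_apply] at h3)
  refine ⟨e.symm r', ?_, b, fun a c s hs hsF => hb a c (e s) ?_ ?_⟩
  · have h3 := e.symm.monotone hr'
    rwa [e.symm_apply_apply] at h3
  · have h3 := e.monotone hs
    rwa [e.apply_symm_apply] at h3
  · change e.symm (e s) ∈ F a c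
    rw [e.symm_apply_apply]
    exact hsF

end Pool.Agent.CG3
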