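import Pool.Agent.Lib.MP_99c1f3_lc.CG.H.Defs

/-!
# CG3, block H: long descending constructions
-/

set_option autoImplicit false

namespace Pool.Agent.CG3

/-- The requirement at stage `w` on a triple. -/
private def ChGood {W : Type 1} [LinearOrder W] {Q : Type 1} [Preorder Q] {X : Type*}
    (q0 : Q) (Rl : W → Q → X → Q → Prop) (w : W) (prev : ∀ v : W, v < w → Q × X × Q)
    (t : Q × X × Q) : Prop :=
  t.1 ≤ q0 ∧ (∀ v (h : v < w), t.1 ≤ (prev v h).2.2) ∧ t.2.2 ≤ t.1 ∧ Rl w t.1 t.2.1 t.2.2

open Classical in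
/-- One step of the recursion. -/
private noncomputable def ChStep {W : Type 1} [LinearOrder W] {Q : Type 1} [Preorder Q]
    {X : Type*} (x0 : X) (q0 : Q) (Rl : W → Q → X → Q → Prop) (w : W)
    (prev : ∀ v : W, v < w → Q × X × Q) : Q × X × Q :=
  if h : ∃ t, ChGood q0 Rl w prev t then h.choose else (q0, x0, q0)

/-- Long descending construction in a closed preorder.

PROOF. By well-founded recursion on `w : W` define `F w = (a w, x w, b w)` as follows (choice):
if there is a triple `(a, x, b)` with `a ≤ q0`, `a ≤ (F v).b` for all `v < w`, `b ≤ a`,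
`Rl w a x b`, take such a triple, otherwise anything (`(q0, default, q0)`).
CLAIM: for every `w` such a triple exists, so `F w` has these properties. Induction on `w`: for
`v < v' < w` we have `b v' ≤ a v' ≤ b v ≤ a v ≤ q0` by the induction hypothesis, so
`C = {q0} ∪ {b v | v < w}` is a chain of size `≤ #(Iio w) + 1 < θ` (`θ` infinite), it has a lower
bound `a` (`hQ`), and `hR w a` gives `x`, `b`. -/
theorem long_desc {W : Type 1} [LinearOrder W] [WellFoundedLT W] {Q : Type 1} [Preorder Q]
    {X : Type*} [Nonempty X] {θ : Cardinal.{1}} (hθ : Cardinal.aleph0 ≤ θ)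
    (hW : ∀ w : W, Cardinal.mk (Set.Iio w) < θ) (hQ : ClosB Q θ) (q0 : Q)
    (Rl : W → Q → X → Q → Prop) (hR : ∀ w, ∀ q ≤ q0, ∃ x, ∃ q' ≤ q, Rl w q x q') :
    ∃ (a b : W → Q) (x : W → X), (∀ w, a w ≤ q0) ∧ (∀ w, b w ≤ a w) ∧
      (∀ w, Rl w (a w) (x w) (b w)) ∧ ∀ v w, v < w → a w ≤ b v := by
  obtain ⟨x0⟩ := ‹Nonempty X›
  let F : W → Q × X × Q :=
    (wellFounded_lt : WellFounded ((· < ·) : W → W → Prop)).fix (ChStep x0 q0 Rl)
  have hF : ∀ w, F w = ChStep x0 q0 Rl w (fun v _ => F v) := fun w =>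
    (wellFounded_lt : WellFounded ((· < ·) : W → W → Prop)).fix_eq (ChStep x0 q0 Rl) w
  have key : ∀ w, ChGood q0 Rl w (fun v _ => F v) (F w) := by
    intro w
    refine (wellFounded_lt : WellFounded ((· < ·) : W → W → Prop)).induction
      (C := fun w => ChGood q0 Rl w (fun v _ => F v) (F w)) w ?_
    intro w ih
    have hb0 : ∀ v, v < w → (F v).2.2 ≤ q0 := fun v hv =>
      le_trans (ih v hv).2.2.1 (ih v hv).1
    have hbb : ∀ v v', v' < w → v < v' → (F v').2.2 ≤ (F v).2.2 := fun v v' hv' hvv =>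
      le_trans (ih v' hv').2.2.1 ((ih v' hv').2.1 v hvv)
    have hex : ∃ t, ChGood q0 Rl w (fun v _ => F v) t := by
      obtain ⟨a, ha⟩ := hQ (insert q0 ((fun v => (F v).2.2) '' Set.Iio w)) (by
        intro p hp q hq hpq
        rcases hp with rfl | ⟨v, hv, rfl⟩
        · rcases hq with rfl | ⟨v', hv', rfl⟩
          · exact absurd rfl hpq
          · exact Or.inr (hb0 v' hv')
        · rcases hq with rfl | ⟨v', hv', rfl⟩
          · exact Or.inl (hb0 v hv)
          · rcases lt_trichotomy v v' with h | h | h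
            · exact Or.inr (hbb v v' hv' h)
            · subst h
              exact absurd rfl hpq
            · exact Or.inl (hbb v' v hv h)) (by
        refine lt_of_le_of_lt Cardinal.mk_insert_le ?_
        refine Cardinal.add_lt_of_lt hθ ?_ (lt_of_lt_of_le Cardinal.one_lt_aleph0 hθ)
        exact lt_of_le_of_lt Cardinal.mk_image_le (hW w))
      have ha0 : a ≤ q0 := ha q0 (Set.mem_insert _ _)
      obtain ⟨x, q', hq', hR'⟩ := hR w a ha0
      refine ⟨(a, x, q'), ha0, ?_, hq', hR'⟩
      intro v hv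
      exact ha _ (Set.mem_insert_of_mem _ ⟨v, hv, rfl⟩)
    rw [hF w]
    unfold ChStep
    rw [dif_pos hex]
    exact hex.choose_spec
  exact ⟨fun w => (F w).1, fun w => (F w).2.2, fun w => (F w).2.1, fun w => (key w).1,
    fun w => (key w).2.2.1, fun w => (key w).2.2.2, fun v w h => (key w).2.1 v h⟩

end Pool.Agent.CG3
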