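import Pool.Agent.Lib.MP_99c1f3_lc.CG.H.Rho

/-!
# CG3, block H: closure of `Coll n` and of the products
-/

set_option autoImplicit false

namespace Pool.Agent.CG3

/-- PROOF. Let `C` be a chain of size `< rho n` in `Coll n`. Let `f ν = some X` if some `c ∈ C` has
`c.f ν = some X`, `none` otherwise (well defined: two elements of the chain are comparable, so
they do not give different values; by choice). For `c ∈ C` let `β c` be a bound of the domain of
`c`; the set of these bounds has size `< rho n`, so it is bounded by some `b` (`bdd_of_lt`), which is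
a bound of the domain of `f`. For an empty `C` take the empty function (`R n` is nonempty). -/
theorem closB_Coll (n : ℕ) : ClosB (Coll n) (rho n) := by
  classical
  intro C hC hlt
  have huniq : ∀ c ∈ C, ∀ c' ∈ C, ∀ ν X X', c.f ν = some X → c'.f ν = some X' → X = X' := by
    intro c hc c' hc' ν X X' h1 h2
    rcases hC.total hc hc' with h | h
    · have h3 : c.f ν = some X' := h ν X' h2
      rw [h1] at h3
      exact Option.some.inj h3
    · have h3 : c'.f ν = some X := h ν X h1
      rw [h2] at h3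
      exact (Option.some.inj h3).symm
  have hβ : ∀ c : Coll n, ∀ ν, c.bd.choose ≤ ν → c.f ν = none := fun c => c.bd.choose_spec
  obtain ⟨b, hb⟩ := bdd_of_lt (rho_reg n) ((fun c : Coll n => c.bd.choose) '' C)
    (Cardinal.mk_image_le.trans_lt hlt)
  refine ⟨⟨fun ν => if h : ∃ X, ∃ c ∈ C, c.f ν = some X then some h.choose else none, b, ?_⟩, ?_⟩
  · intro ν hν
    have hn : ¬ ∃ X, ∃ c ∈ C, c.f ν = some X := by
      rintro ⟨X, c, hc, h⟩
      rw [hβ c ν ((hb _ ⟨c, hc, rfl⟩).le.trans hν)] at h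
      cases h
    exact dif_neg hn
  · intro c hc ν X hX
    have h : ∃ X, ∃ c ∈ C, c.f ν = some X := ⟨X, c, hc, hX⟩
    obtain ⟨c', hc', h'⟩ := h.choose_spec
    exact (dif_pos h).trans (congrArg some (huniq c' hc' c hc ν _ _ h' hX))

theorem ClosB.mono {Q : Type 1} [Preorder Q] {θ θ' : Cardinal.{1}} (h : ClosB Q θ)
    (hle : θ' ≤ θ) : ClosB Q θ' :=
  fun C hC hlt => h C hC (hlt.trans_le hle)

/-- PROOF. For a chain `C` in the product and `i : ι` the image of `C` under the projection is a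
chain of size `≤ #C`; choose lower bounds in every coordinate. -/
theorem closB_pi {ι : Type} {Q : ι → Type 1} [∀ i, Preorder (Q i)] {θ : Cardinal.{1}}
    (h : ∀ i, ClosB (Q i) θ) : ClosB (∀ i, Q i) θ := by
  intro C hC hlt
  have h1 : ∀ i, ∃ q : Q i, ∀ c ∈ (fun x : (∀ i, Q i) => x i) '' C, q ≤ c := by
    intro i
    refine h i _ ?_ (Cardinal.mk_image_le.trans_lt hlt)
    rintro _ ⟨c, hc, rfl⟩ _ ⟨c', hc', rfl⟩ _
    exact (hC.total hc hc').imp (fun h2 => h2 i) (fun h2 => h2 i)
  choose q hq using h1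
  exact ⟨q, fun c hc i => hq i _ ⟨c, hc, rfl⟩⟩

/-- PROOF. `closB_pi`, `closB_Coll`, `rho 0 ≤ rho m`. -/
theorem closB_Hx : ClosB Hx (rho 0) :=
  closB_pi fun n => (closB_Coll n).mono (rho_strictMono.monotone (Nat.zero_le n))

/-- PROOF. `closB_pi`, `closB_Coll`, `rho (n + 1) ≤ rho m` for `¬ m ≤ n`. -/
theorem closB_Hgt (n : ℕ) : ClosB (Hgt n) (rho (n + 1)) :=
  closB_pi fun m => (closB_Coll m.1).mono (rho_strictMono.monotone (not_le.mp m.2))

/-- The splitting `P × H ≃o (P × H_{≤ n}) × H_{> n}`.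

PROOF. `Equiv.piEquivPiSubtypeProd (fun m => m ≤ n)` and associativity; the order on both sides is
coordinatewise. -/
theorem exists_split (P : Type 1) [Preorder P] (n : ℕ) :
    ∃ e : P × Hx ≃o (P × Hle n) × Hgt n, ∀ s, (e s).1.1 = s.1 ∧ (∀ m, (e s).1.2 m = s.2 m.1) ∧
      ∀ m, (e s).2 m = s.2 m.1 := by
  classical
  refine ⟨{ toFun := fun s => ((s.1, fun m => s.2 m.1), fun m => s.2 m.1)
            invFun := fun t => (t.1.1, fun m => if h : m ≤ n then t.1.2 ⟨m, h⟩ else t.2 ⟨m, h⟩)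
            left_inv := ?_
            right_inv := ?_
            map_rel_iff' := ?_ }, fun s => ⟨rfl, fun m => rfl, fun m => rfl⟩⟩
  · rintro ⟨p, f⟩
    refine Prod.ext rfl (funext fun m => ?_)
    by_cases h : m ≤ n
    · exact dif_pos h
    · exact dif_neg h
  · rintro ⟨⟨p, f⟩, g⟩
    refine Prod.ext (Prod.ext rfl (funext fun m => ?_)) (funext fun m => ?_)
    · exact dif_pos m.2
    · exact dif_neg m.2
  · rintro ⟨p, f⟩ ⟨p', f'⟩
    constructor
    · rintro ⟨⟨h1, h2⟩, h3⟩
      refine ⟨h1, fun m => ?_⟩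
      by_cases h : m ≤ n
      · exact h2 ⟨m, h⟩
      · exact h3 ⟨m, h⟩
    · rintro ⟨h1, h2⟩
      exact ⟨⟨h1, fun m => h2 m.1⟩, fun m => h2 m.1⟩

end Pool.Agent.CG3
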