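import Pool.Agent.Lib.MP_99c1f3_lc.CG.Iface

/-!
# CG3, block H, definitions

`P = P₀ × H`, where `H` is the full support product of the posets `Coll n = Coll(ρ n, 2^(ρ n))`.
The structure `Facts0` collects what is needed of `P₀`; block H proves
`Facts0 P₀ → Facts (P₀ × H)`.
-/

set_option autoImplicit false

namespace Pool.Agent.CG3

open Pool.Agent.Lib.SymModel

/-- A dense open set of conditions. -/
structure DnsO {P : Type*} [Preorder P] (D : Set P) : Prop where
  dns : ∀ p, ∃ q ≤ p, q ∈ D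
  opn : ∀ p ∈ D, ∀ q ≤ p, q ∈ D

/-- `S ∩ D` is predense below `r`. -/
def CovB {P : Type*} [Preorder P] (D S : Set P) (r : P) : Prop :=
  ∀ s ≤ r, ∃ t ∈ S, t ∈ D ∧ ∃ u ≤ s, u ≤ t

/-- What is needed of the first factor `P₀`. -/
structure Facts0 (P : Type 1) [Preorder P] : Prop where
  ne : Nonempty P
  card : Cardinal.mk P ≤ 2 ^ rho 0
  /-- `P₀` has the `μ`-chain condition. -/
  cc : ∀ f : R 0 → P, ∃ i j, i ≠ j ∧ ∃ r, r ≤ f i ∧ r ≤ f j
  /-- Lemma D followed by Lemma A. -/
  pd0 : ∀ D : ℕ → Set P, (∀ n, DnsO (D n)) → ∀ q, ∃ r ≤ q, ∃ S : Set P, Small.{0} S ∧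
    ∀ n, CovB (D n) S r
  /-- Lemma D followed by the `κ⁺`-chain condition of `T`. -/
  pd1 : ∀ D : K0 → Set P, (∀ β, DnsO (D β)) → ∀ q, ∃ r ≤ q, ∃ S : Set P,
    Cardinal.mk S ≤ kap ∧ ∀ β, CovB (D β) S r
  col0 : ∀ α : K0, OntoB P ℕ (Set.Iio α)
  col2 : ∀ r : R 0, OntoB P L (Set.Iio r)
  star : StarB P

/-- Every chain of size less than `θ` has a lower bound. -/
def ClosB (Q : Type 1) [Preorder Q] (θ : Cardinal.{1}) : Prop :=
  ∀ C : Set Q, IsChain (· ≤ ·) C → Cardinal.mk C < θ → ∃ q, ∀ c ∈ C, q ≤ c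

/-- There is no family of `θ` pairwise incompatible conditions. -/
def CCB (P : Type 1) [Preorder P] (θ : Cardinal.{1}) : Prop :=
  ∀ S : Set P, (∀ p ∈ S, ∀ q ∈ S, p ≠ q → ∀ r, r ≤ p → ¬ r ≤ q) → Cardinal.mk S < θ

/-- `Coll(ρ n, 2^(ρ n))`: partial functions from `ρ n` to the power set of `ρ n`, with bounded
domain. -/
structure Coll (n : ℕ) : Type 1 where
  /-- the function -/
  f : R n → Option (Set (R n))
  bd : ∃ β, ∀ ν, β ≤ ν → f ν = none

instance (n : ℕ) : PartialOrder (Coll n) where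
  le p q := ∀ ν X, q.f ν = some X → p.f ν = some X
  le_refl _ _ _ h := h
  le_trans p q r h1 h2 ν X h := h1 ν X (h2 ν X h)
  le_antisymm p q h1 h2 := by
    cases p with
    | mk f hf =>
      cases q with
      | mk g hg =>
        have h : f = g := by
          funext ν
          cases hν : f ν with
          | none =>
            cases hμ : g ν with
            | none => rfl
            | some X => exact absurd (h1 ν X hμ) (by
                change f ν ≠ some X
                rw [hν]
                exact fun h => by cases h)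
          | some X => exact (h2 ν X hν).symm
        subst h
        rfl

/-- `H`: the full support product. -/
abbrev Hx : Type 1 := ∀ n, Coll n

/-- The factor of the coordinates at most `n`. -/
abbrev Hle (n : ℕ) : Type 1 := ∀ m : {m : ℕ // m ≤ n}, Coll m.1

/-- The factor of the coordinates greater than `n`. -/
abbrev Hgt (n : ℕ) : Type 1 := ∀ m : {m : ℕ // ¬ m ≤ n}, Coll m.1

end Pool.Agent.CG3
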