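import Pool.Agent.Lib.MP_99c1f3_lc.CG.H.Rho

/-!
# CG3, block H: the names of the generic functions of `Coll m`
-/

set_option autoImplicit false

namespace Pool.Agent.CG3

open Pool.Agent.Lib.SymModel

private theorem GnmNoMax (m : ℕ) (a : R m) : ∃ b, a < b := by
  have : NoMaxOrder (R m) := Cardinal.noMaxOrder (rho_reg m).aleph0_le
  exact exists_gt a

open Classical in
/-- The condition `c` with the value `X` at `a` added. -/
private noncomputable def GnmAdd {m : ℕ} (c : Coll m) (a : R m) (X : Set (R m)) : Coll m where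
  f := Function.update c.f a (some X)
  bd := by
    obtain ⟨β, hβ⟩ := c.bd
    obtain ⟨b, hb⟩ := GnmNoMax m (max β a)
    refine ⟨b, fun ν hν => ?_⟩
    have h1 : max β a < ν := lt_of_lt_of_le hb hν
    rw [Function.update_of_ne (ne_of_gt (lt_of_le_of_lt (le_max_right β a) h1))]
    exact hβ ν (le_of_lt (lt_of_le_of_lt (le_max_left β a) h1))

private theorem GnmAdd_self {m : ℕ} (c : Coll m) (a : R m) (X : Set (R m)) :
    (GnmAdd c a X).f a = some X := by
  simp [GnmAdd]

private theorem GnmAdd_le {m : ℕ} (c : Coll m) (a : R m) (X : Set (R m)) (h : c.f a = none) :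
    GnmAdd c a X ≤ c := by
  intro ν Y hY
  have hν : ν ≠ a := by
    rintro rfl
    rw [h] at hY
    cases hY
  simp [GnmAdd, Function.update_of_ne hν, hY]

open Classical in
/-- The condition `s` with the value `X` at `a` added in the coordinate `m`. -/
private noncomputable def GnmAddx {P : Type 1} {m : ℕ} (s : P × Hx) (a : R m) (X : Set (R m)) :
    P × Hx :=
  (s.1, Function.update s.2 m (GnmAdd (s.2 m) a X))

private theorem GnmAddx_self {P : Type 1} {m : ℕ} (s : P × Hx) (a : R m) (X : Set (R m)) :
    ((GnmAddx s a X).2 m).f a = some X := by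
  simp only [GnmAddx, Function.update_self]
  exact GnmAdd_self _ _ _

private theorem GnmAddx_le {P : Type 1} [Preorder P] {m : ℕ} (s : P × Hx) (a : R m)
    (X : Set (R m)) (h : (s.2 m).f a = none) : GnmAddx s a X ≤ s := by
  refine ⟨le_refl _, fun n => ?_⟩
  by_cases hn : n = m
  · subst hn
    simp only [GnmAddx, Function.update_self]
    exact GnmAdd_le _ _ _ h
  · simp only [GnmAddx, Function.update_of_ne hn]
    exact le_refl _

/-- The value of `g_m(a) = X`, where `g_m` is the generic function `R m → Set (R m)`.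

PROOF of regularity. `→`: stability. `←`: if `(s.2 m).f a = some X'` take `q = s`, then `r ≤ s` has
`some X'`, so `X' = X`. If it is `none` let `q` be `s` with the value `Xᶜ ≠ X` at `a` added in
coordinate `m` (the domain stays bounded: `R m` has no maximum); then `r ≤ q` has value `Xᶜ`. -/
theorem gnm_reg (P : Type 1) [Preorder P] (m : ℕ) (a : R m) (X : Set (R m)) (s : P × Hx) :
    s ∈ {s : P × Hx | (s.2 m).f a = some X} ↔
      ∀ q ≤ s, ∃ r ≤ q, r ∈ {s : P × Hx | (s.2 m).f a = some X} := by
  constructor
  · intro h q hq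
    exact ⟨q, le_refl _, hq.2 m a X h⟩
  · intro h
    cases hs : (s.2 m).f a with
    | some X' =>
      obtain ⟨r, hr, hX⟩ := h s (le_refl _)
      have h1 : (r.2 m).f a = some X := hX
      have h2 : (r.2 m).f a = some X' := hr.2 m a X' hs
      change (s.2 m).f a = some X
      rw [hs, ← h2, h1]
    | none =>
      exfalso
      obtain ⟨r, hr, hX⟩ := h (GnmAddx s a Xᶜ) (GnmAddx_le s a Xᶜ hs)
      have h1 : (r.2 m).f a = some X := hX
      have h2 : (r.2 m).f a = some Xᶜ := hr.2 m a Xᶜ (GnmAddx_self s a Xᶜ)
      have h3 : X = Xᶜ := Option.some.inj (h1.symm.trans h2)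
      have h4 : a ∈ X ↔ a ∉ X := by
        constructor
        · intro ha
          rw [h3] at ha
          exact ha
        · intro ha
          rw [h3]
          exact ha
      tauto

/-- The value of `g_m(a) = X`. -/
def gnm (P : Type 1) [Preorder P] (m : ℕ) (a : R m) (X : Set (R m)) : RO (P × Hx) where
  carrier := {s | (s.2 m).f a = some X}
  reg s := gnm_reg P m a X s

theorem mem_gnm {P : Type 1} [Preorder P] {m : ℕ} {a : R m} {X : Set (R m)} {s : P × Hx} :
    s ∈ gnm P m a X ↔ (s.2 m).f a = some X := Iff.rfl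

/-- Every value is taken outside of every condition.

PROOF. Let `β` be a bound of the domain of `q.2 m`, `a = β`; add the value `X` at `a` (bound: an
element greater than `β`, `R m` has no maximum). Use `Function.update q.2 m _`. -/
theorem gnm_ext {P : Type 1} [Preorder P] (m : ℕ) (X : Set (R m)) (q : P × Hx) :
    ∃ r ≤ q, r.1 = q.1 ∧ ∃ a, r ∈ gnm P m a X := by
  obtain ⟨β, hβ⟩ := (q.2 m).bd
  refine ⟨GnmAddx q β X, GnmAddx_le q β X (hβ β (le_refl _)), rfl, β, ?_⟩
  rw [mem_gnm]
  exact GnmAddx_self q β X

end Pool.Agent.CG3
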