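import Pool.Agent.Lib.MP_99c1f3_lc.CG.H.Rho

/-!
# CG3, block H: the sizes of the factors
-/

set_option autoImplicit false

namespace Pool.Agent.CG3

/-- PROOF. An element of `Coll n` is given by a bound `β : R n` and a function
`Set.Iio β → Option (Set (R n))`; injection of `Coll n` into
`Σ β : R n, (Set.Iio β → Option (Set (R n)))` (choose `β`, restrict `f`), whose size is at most
`rho n * (2 ^ rho n) ^ rho n = 2 ^ rho n`. Simpler: `Coll.f` is injective into
`R n → Option (Set (R n))`, of size `(2 ^ rho n + 1) ^ rho n = 2 ^ rho n`. -/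
theorem mk_Coll (n : ℕ) : Cardinal.mk (Coll n) ≤ 2 ^ rho n := by
  have hinj : Function.Injective (Coll.f : Coll n → (R n → Option (Set (R n)))) := by
    intro a b h
    cases a with
    | mk f hf =>
      cases b with
      | mk g hg =>
        have h' : f = g := h
        subst h'
        rfl
  have hre : Cardinal.aleph0 ≤ rho n := (rho_reg n).aleph0_le
  have hc : Cardinal.aleph0 ≤ (2 : Cardinal.{1}) ^ rho n := hre.trans (Cardinal.cantor _).le
  refine (Cardinal.mk_le_of_injective hinj).trans (le_of_eq ?_)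
  rw [← Cardinal.power_def, Cardinal.mk_option, Cardinal.mk_set, mk_R, Cardinal.add_one_eq hc,
    ← Cardinal.power_mul, Cardinal.mul_eq_self hre]

/-- PROOF. A finite product: `Hle n` injects into `{m // m ≤ n} → (R n → Option (Set (R n)))`
up to the identification of `R m` with a subset of `R n`; or: a product of a finite (nonempty)
family of sets of size `≤ 2 ^ rho n` (an infinite cardinal) has size `≤ 2 ^ rho n`:
`Cardinal.mk_pi`, `Cardinal.prod_le_prod`, `Cardinal.prod_const`, `c ^ (finite) ≤ c`. -/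
theorem mk_Hle (n : ℕ) : Cardinal.mk (Hle n) ≤ 2 ^ rho n := by
  have hre : Cardinal.aleph0 ≤ rho n := (rho_reg n).aleph0_le
  have hc : Cardinal.aleph0 ≤ (2 : Cardinal.{1}) ^ rho n := hre.trans (Cardinal.cantor _).le
  have h1 : Cardinal.mk (Hle n) ≤
      Cardinal.prod fun _ : {m : ℕ // m ≤ n} => (2 : Cardinal.{1}) ^ rho n := by
    rw [Cardinal.mk_pi]
    refine Cardinal.prod_le_prod _ _ fun m => (mk_Coll m.1).trans ?_
    exact Cardinal.power_le_power_left two_ne_zero (rho_strictMono.monotone m.2)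
  refine h1.trans ?_
  have hfin : Finite {m : ℕ // m ≤ n} := (Set.finite_Iic n).to_subtype
  obtain ⟨k, hk⟩ : ∃ k : ℕ, Cardinal.mk {m : ℕ // m ≤ n} = k :=
    Cardinal.lt_aleph0.1 (Cardinal.mk_lt_aleph0 (α := {m : ℕ // m ≤ n}))
  rw [Cardinal.prod_const, hk, Cardinal.lift_natCast, Cardinal.lift_uzero]
  exact Cardinal.power_nat_le hc

/-- PROOF. `#(P × Hle n) ≤ 2 ^ rho 0 * 2 ^ rho n = 2 ^ rho n < rho (n + 1)`. -/
theorem ccB_prod {P : Type 1} [Preorder P] (h : Cardinal.mk P ≤ 2 ^ rho 0) (n : ℕ) :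
    CCB (P × Hle n) (rho (n + 1)) := by
  intro S _
  have hre : Cardinal.aleph0 ≤ rho n := (rho_reg n).aleph0_le
  have hc : Cardinal.aleph0 ≤ (2 : Cardinal.{1}) ^ rho n := hre.trans (Cardinal.cantor _).le
  have h0 : Cardinal.mk P ≤ 2 ^ rho n :=
    h.trans (Cardinal.power_le_power_left two_ne_zero (rho_strictMono.monotone (Nat.zero_le n)))
  have h1 : Cardinal.mk (P × Hle n) ≤ 2 ^ rho n := by
    rw [Cardinal.mk_prod, Cardinal.lift_id, Cardinal.lift_id]
    calc Cardinal.mk P * Cardinal.mk (Hle n) ≤ 2 ^ rho n * 2 ^ rho n :=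
          mul_le_mul' h0 (mk_Hle n)
      _ = 2 ^ rho n := Cardinal.mul_eq_self hc
  exact ((Cardinal.mk_set_le S).trans h1).trans_lt (two_pow_rho_lt n)

/-- The chain condition of `Facts0`.

PROOF. If an antichain `S` had size `≥ rho 0 = #(R 0)` there would be an injection
`f : R 0 → S`, and `cc` gives compatible `f i`, `f j`, `i ≠ j`. -/
theorem ccB_of_facts0 {P : Type 1} [Preorder P] (h : Facts0 P) : CCB P (rho 0) := by
  intro S hS
  by_contra hlt
  push Not at hlt
  rw [← mk_R 0] at hlt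
  obtain ⟨f⟩ := (Cardinal.le_def _ _).1 hlt
  obtain ⟨i, j, hij, r, hri, hrj⟩ := h.cc (fun i => (f i).1)
  have hne : (f i).1 ≠ (f j).1 := fun he => hij (f.injective (Subtype.ext he))
  exact hS (f i).1 (f i).2 (f j).1 (f j).2 hne r hri hrj

end Pool.Agent.CG3
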