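import Pool.Agent.Lib.MP_99c1f3_lc.CG.H.Gnm
import Pool.Agent.Lib.MP_99c1f3_lc.CG.H.Clo
import Pool.Agent.Lib.MP_99c1f3_lc.CG.H.Siz

/-!
# CG3, block H: the power sets
-/

set_option autoImplicit false

namespace Pool.Agent.CG3

open Pool.Agent.Lib.SymModel

/-- Names of subsets are reduced to the first factor.

PROOF. `q = (p1, q1)`. `hE` for `D a = {s | s ∈ Y a ∨ s ∈ (Y a)ᶜ}` (dense open) gives
`q' ≤ q1` with `{p | (p, q') ∈ D a}` dense for all `a`. Put `y a = {p | (p, q') ∈ Y a}`, a regular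
set: if for all `p' ≤ p` some `p'' ≤ p'` has `(p'', q') ∈ Y a` then `(p, q') ∈ Y a`, because every
`(p', k) ≤ (p, q')` has `(p'', k) ≤ (p'', q')`. Let `s = (s1, k) ≤ (p1, q')`. If `s1 ∈ y a` then
`s ≤ (s1, q') ∈ Y a`. If `s ∈ Y a` then `s1 ∈ y a`: for `t ≤ s1` there is `t' ≤ t` with
`(t', q') ∈ D a`; it is not in `(Y a)ᶜ` because `(t', k) ≤ (t', q')` is in `Y a`; so `t' ∈ y a`. -/
theorem red_set {P Q : Type 1} [Preorder P] [Preorder Q] {A : Type*}
    (hE : ∀ D : A → Set (P × Q), (∀ a, DnsO (D a)) → ∀ q : Q,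
      ∃ q' ≤ q, ∀ a p, ∃ p' ≤ p, (p', q') ∈ D a)
    (Y : A → RO (P × Q)) (q : P × Q) :
    ∃ q' ≤ q.2, ∃ y : A → RO P, ∀ a, ∀ s ≤ (q.1, q'), (s ∈ Y a ↔ s.1 ∈ y a) := by
  have hD : ∀ a, DnsO {s : P × Q | s ∈ Y a ∨ s ∈ (Y a)ᶜ} := by
    intro a
    refine ⟨fun p => ?_, fun p hp r hr => ?_⟩
    · by_cases h : ∃ r ≤ p, r ∈ Y a
      · obtain ⟨r, hr, h⟩ := h
        exact ⟨r, hr, Or.inl h⟩
      · push Not at h
        exact ⟨p, le_rfl, Or.inr h⟩
    · rcases hp with h | h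
      · exact Or.inl ((Y a).down h hr)
      · exact Or.inr ((Y a)ᶜ.down h hr)
  obtain ⟨q', hq', hd⟩ := hE _ hD q.2
  have hreg : ∀ a (p : P), p ∈ {p : P | (p, q') ∈ Y a} ↔
      ∀ p' ≤ p, ∃ r ≤ p', r ∈ {p : P | (p, q') ∈ Y a} := by
    intro a p
    constructor
    · intro h p' hp'
      exact ⟨p', le_rfl, (Y a).down (p := (p, q')) h ⟨hp', le_rfl⟩⟩
    · intro h
      refine (Y a).mem_of_dense (p := (p, q')) ?_
      rintro ⟨p', k⟩ hk
      obtain ⟨r, hr, hrY⟩ := h p' hk.1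
      exact ⟨(r, k), ⟨hr, le_rfl⟩, (Y a).down (p := (r, q')) hrY ⟨le_rfl, hk.2⟩⟩
  refine ⟨q', hq', fun a => ⟨{p : P | (p, q') ∈ Y a}, hreg a⟩, ?_⟩
  rintro a ⟨s1, k⟩ hs
  constructor
  · intro hY
    refine (hreg a s1).2 fun t ht => ?_
    obtain ⟨t', ht', h | h⟩ := hd a t
    · exact ⟨t', ht', h⟩
    · exfalso
      exact h (t', k) ⟨le_rfl, hs.2⟩ ((Y a).down (p := (s1, k)) hY ⟨ht'.trans ht, le_rfl⟩)
  · intro hy
    exact (Y a).down (p := (s1, q')) hy ⟨le_rfl, hs.2⟩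

/-- PROOF. `#(RO (P × Hle n)) ≤ 2 ^ #(P × Hle n) ≤ 2 ^ 2 ^ rho n ≤ 2 ^ rho (n + 1)`
(`2 ^ rho n ≤ rho (n + 1)`) and `(2 ^ rho (n + 1)) ^ rho n = 2 ^ rho (n + 1)`. -/
theorem exists_surj {P : Type 1} [Preorder P] (h : Cardinal.mk P ≤ 2 ^ rho 0) (n : ℕ) :
    ∃ φ : Set (R (n + 1)) → (R n → RO (P × Hle n)), Function.Surjective φ := by
  have hinf : Cardinal.aleph0 ≤ rho n := aleph0_le_kap.trans (kap_lt_rho n).le
  have hinf1 : Cardinal.aleph0 ≤ rho (n + 1) := aleph0_le_kap.trans (kap_lt_rho (n + 1)).le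
  have hlt : rho n < 2 ^ rho n := Cardinal.cantor _
  have hP : Cardinal.mk P ≤ 2 ^ rho n := h.trans
    (Cardinal.power_le_power_left two_ne_zero (rho_strictMono.monotone (Nat.zero_le n)))
  have h1 : Cardinal.mk (P × Hle n) ≤ rho (n + 1) := by
    rw [Cardinal.mk_prod, Cardinal.lift_id, Cardinal.lift_id]
    refine (mul_le_mul' hP (mk_Hle n)).trans ?_
    rw [Cardinal.mul_eq_self (hinf.trans hlt.le)]
    exact (two_pow_rho_lt n).le
  have h2 : Cardinal.mk (RO (P × Hle n)) ≤ 2 ^ rho (n + 1) := by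
    have hi : Function.Injective (RO.carrier : RO (P × Hle n) → Set (P × Hle n)) := by
      intro a b hab
      exact RO.ext hab
    refine (Cardinal.mk_le_of_injective hi).trans ?_
    rw [Cardinal.mk_set]
    exact Cardinal.power_le_power_left two_ne_zero h1
  have h3 : Cardinal.mk (R n → RO (P × Hle n)) ≤ Cardinal.mk (Set (R (n + 1))) := by
    rw [Cardinal.mk_set, mk_R]
    calc Cardinal.mk (R n → RO (P × Hle n))
        = Cardinal.mk (RO (P × Hle n)) ^ Cardinal.mk (R n) := by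
          rw [Cardinal.power_def]
      _ ≤ (2 ^ rho (n + 1)) ^ rho n := by
          rw [mk_R]
          exact Cardinal.power_le_power_right h2
      _ = 2 ^ (rho (n + 1) * rho n) := by rw [Cardinal.power_mul]
      _ = 2 ^ rho (n + 1) := by
          rw [Cardinal.mul_eq_left hinf1 (rho_strictMono (Nat.lt_succ_self n)).le
            (Cardinal.aleph0_pos.trans_le hinf).ne']
  obtain ⟨g⟩ := h3
  exact ⟨Function.invFun g, Function.invFun_surjective g.injective⟩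

end Pool.Agent.CG3
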