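import Pool.Agent.Lib.MP_99c1f3_lc.CG.H.Bdd

/-!
# CG3, block H: reduction of names to a covered set of conditions
-/

set_option autoImplicit false

namespace Pool.Agent.CG3

open Pool.Agent.Lib.SymModel

/-- Reduction of names to a covered set of conditions.

PROOF. `q = (p1, q1)`. `hE` for `D a = DecS F a` (`decS_dnsO`) gives `q' ≤ q1` with
`E a = {p | (p, q') ∈ DecS F a}` dense for all `a`; `E a` is open, so `DnsO (E a)`. `hc` gives
`p2 ≤ p1` and `S`. Let `r = (p2, q') ≤ q`, and let `G a t` be `some b` for a chosen `b` with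
`(t, q') ∈ F a b` if there is one, `none` otherwise.
Let `s = (s1, s2) ≤ r` be in `F a c`. `CovB (E a) S p2` gives `t ∈ S ∩ E a`, `u ≤ s1`, `u ≤ t`.
`(u, s2) ≤ s` is in `F a c` and `(u, s2) ≤ (t, q')`, which is in `DecS F a`, so the second
alternative of `DecS` fails and `G a t = some b` with `(t, q') ∈ F a b`; `b = c` by `FnlB` at
`(u, s2) ≤ q`. -/
theorem red_cov {P Q : Type 1} [Preorder P] [Preorder Q] {A B : Type*}
    (hE : ∀ D : A → Set (P × Q), (∀ a, DnsO (D a)) → ∀ q : Q,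
      ∃ q' ≤ q, ∀ a p, ∃ p' ≤ p, (p', q') ∈ D a)
    (T : Set P → Prop) (hc : ∀ D : A → Set P, (∀ a, DnsO (D a)) → ∀ p, ∃ r ≤ p, ∃ S : Set P,
      T S ∧ ∀ a, CovB (D a) S r) (q : P × Q) (F : A → B → RO (P × Q)) (hF : FnlB q F) :
    ∃ r ≤ q, ∃ S : Set P, T S ∧ ∃ G : A → P → Option B, ∀ a c, ∀ s ≤ r, s ∈ F a c →
      ∃ t ∈ S, G a t = some c := by
  classical
  obtain ⟨p1, q1⟩ := q
  obtain ⟨q', hq', h⟩ := hE (fun a => DecS F a) (fun a => decS_dnsO F a) q1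
  obtain ⟨p2, hp2, S, hTS, hS⟩ := hc (fun a => {p | (p, q') ∈ DecS F a})
    (fun a => ⟨h a, fun p hp p' hp' => (decS_dnsO F a).opn _ hp _ ⟨hp', le_rfl⟩⟩) p1
  refine ⟨(p2, q'), ⟨hp2, hq'⟩, S, hTS,
    fun a t => if hb : ∃ b, (t, q') ∈ F a b then some hb.choose else none, ?_⟩
  rintro a c ⟨s1, s2⟩ ⟨hs1, hs2⟩ hs
  have hs2' : s2 ≤ q' := hs2
  have hs1' : s1 ≤ p2 := hs1
  obtain ⟨t, htS, htE, u, hus, hut⟩ := hS a s1 hs1'
  have hus2 : (u, s2) ∈ F a c := (F a c).down hs ⟨hus, le_rfl⟩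
  have hutq : ((u, s2) : P × Q) ≤ (t, q') := ⟨hut, hs2'⟩
  rcases htE with hb | hnb
  · exact ⟨t, htS, (dif_pos hb).trans (congrArg some
      (hF a _ c (u, s2) ⟨(hus.trans hs1').trans hp2, hs2'.trans hq'⟩
      ((F a _).down hb.choose_spec hutq) hus2))⟩
  · exact absurd hus2 (hnb (u, s2) hutq c)

end Pool.Agent.CG3
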