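import Pool.Agent.Lib.MP_99c1f3_lc.CG.H.Defs

/-!
# CG3, block H: the cardinals `ρ n`
-/

set_option autoImplicit false

namespace Pool.Agent.CG3

/-- PROOF. `K0 = Ordinal.{0}` is infinite (it contains the `n : ℕ`). -/
theorem aleph0_le_kap : Cardinal.aleph0 ≤ kap := by
  haveI : Infinite K0 := Infinite.of_injective (fun n : ℕ => (n : Ordinal.{0})) Nat.cast_injective
  exact Cardinal.aleph0_le_mk K0

private theorem Rho_aleph0_le_two_pow {c : Cardinal.{1}} (h : Cardinal.aleph0 ≤ c) :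
    Cardinal.aleph0 ≤ (2 : Cardinal.{1}) ^ c :=
  h.trans (Cardinal.cantor c).le

/-- PROOF. Cases on `n`: successor of an infinite cardinal. -/
theorem rho_reg (n : ℕ) : (rho n).IsRegular := by
  induction n with
  | zero => exact Cardinal.isRegular_succ (Rho_aleph0_le_two_pow aleph0_le_kap)
  | succ n ih => exact Cardinal.isRegular_succ (Rho_aleph0_le_two_pow ih.aleph0_le)

theorem two_pow_rho_lt (n : ℕ) : (2 : Cardinal.{1}) ^ rho n < rho (n + 1) :=
  Order.lt_succ _

/-- PROOF. `rho n < 2 ^ rho n < rho (n + 1)` (`Cardinal.cantor`). -/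
theorem rho_strictMono : StrictMono rho :=
  strictMono_nat_of_lt_succ fun n => (Cardinal.cantor _).trans (two_pow_rho_lt n)

private theorem Rho_two_pow_kap_lt (n : ℕ) : (2 : Cardinal.{1}) ^ kap < rho n :=
  lt_of_lt_of_le (Order.lt_succ _ : (2 : Cardinal.{1}) ^ kap < rho 0)
    (rho_strictMono.monotone (Nat.zero_le n))

/-- PROOF. `kap < 2 ^ kap < rho 0`. -/
theorem kap_lt_rho (n : ℕ) : kap < rho n :=
  (Cardinal.cantor _).trans (Rho_two_pow_kap_lt n)

/-- PROOF. `#L = succ kap ≤ 2 ^ kap < rho 0`. -/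
theorem mk_L_lt_rho (n : ℕ) : Cardinal.mk L < rho n := by
  rw [Cardinal.mk_ord_toType]
  exact (Order.succ_le_of_lt (Cardinal.cantor _)).trans_lt (Rho_two_pow_kap_lt n)

theorem mk_R (n : ℕ) : Cardinal.mk (R n) = rho n :=
  Cardinal.mk_ord_toType _

/-- PROOF. `Cardinal.mk_Iio_ord_toType` or similar. -/
theorem mk_Iio_R {n : ℕ} (r : R n) : Cardinal.mk (Set.Iio r) < rho n := by
  simpa using Cardinal.mk_Iio_lt r

/-- A set of size `< θ` in `θ.ord.ToType`, `θ` regular, is bounded.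

PROOF. An unbounded subset `S` has size at least `cof θ.ord = θ`; `θ.ord.ToType` has no maximum,
so a bound `≤ b` gives a strict bound. (Search Mathlib: `Ordinal.lt_cof_type`,
`Cardinal.IsRegular.cof_eq`, `Order.cof...`) -/
theorem bdd_of_lt {θ : Cardinal.{1}} (hθ : θ.IsRegular) (S : Set θ.ord.ToType)
    (hS : Cardinal.mk S < θ) : ∃ b, ∀ s ∈ S, s < b := by
  by_contra hcon
  push Not at hcon
  have h1 : IsCofinal S := fun b => by
    obtain ⟨s, hs, hb⟩ := hcon b
    exact ⟨s, hs, hb⟩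
  have h2 := Order.cof_le h1
  rw [Ordinal.cof_toType, hθ.cof_ord] at h2
  exact absurd hS (not_lt.2 h2)

/-- PROOF. `bdd_of_lt` with `θ = succ kap`. -/
theorem bdd_L (S : Set L) (hS : Cardinal.mk S ≤ kap) : ∃ b, ∀ s ∈ S, s < b :=
  bdd_of_lt (Cardinal.isRegular_succ aleph0_le_kap) S (hS.trans_lt (Order.lt_succ _))

end Pool.Agent.CG3
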